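import Pool.Agent.W728.PK.Stms

/-!
# Project PK, subtask EXD: divergence for the explicit family
-/

namespace Pool.Agent.W143.PK

open Complex Metric Set Filter Topology MeasureTheory Pool.Agent.W728.PK
open scoped Real ComplexConjugate

noncomputable section

/-- spacing of block `j`. -/
def sp (α : ℝ) (j : ℕ) : ℝ := lev j / (2 * (NN α j : ℝ))

theorem lev_pos (j : ℕ) : 0 < lev j := by unfold lev; positivity

theorem lev_le (j : ℕ) : lev j ≤ 1 / 2 := by
  unfold lev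
  have : (1 / 2 : ℝ) ^ (j + 1) ≤ (1 / 2 : ℝ) ^ 1 :=
    pow_le_pow_of_le_one (by norm_num) (by norm_num) (by omega)
  simpa using this

theorem lev_lt {j k : ℕ} (h : j < k) : lev k ≤ lev j / 2 := by
  unfold lev
  have h1 : (1 / 2 : ℝ) ^ (k + 1) ≤ (1 / 2 : ℝ) ^ (j + 1 + 1) :=
    pow_le_pow_of_le_one (by norm_num) (by norm_num) (by omega)
  have h2 : (1 / 2 : ℝ) ^ (j + 1 + 1) = (1 / 2 : ℝ) ^ (j + 1) / 2 := by rw [pow_succ]; ring
  linarith

theorem NN_pos (α : ℝ) (j : ℕ) : 0 < NN α j := by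
  unfold NN
  apply Nat.ceil_pos.2
  positivity

theorem sp_pos (α : ℝ) (j : ℕ) : 0 < sp α j := by
  unfold sp
  have := NN_pos α j
  have := lev_pos j
  positivity

theorem th_eq (α : ℝ) (x : Idx α) : th α x = lev x.1 + ((x.2 : ℕ) : ℝ) * sp α x.1 := by
  unfold th sp
  ring

theorem th_ge (α : ℝ) (x : Idx α) : lev x.1 ≤ th α x := by
  rw [th_eq]
  have := sp_pos α x.1
  have : 0 ≤ ((x.2 : ℕ) : ℝ) * sp α x.1 := by positivity
  linarith

theorem th_le (α : ℝ) (x : Idx α) : th α x + sp α x.1 ≤ 3 / 2 * lev x.1 := by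
  rw [th_eq]
  have h1 : ((x.2 : ℕ) : ℝ) + 1 ≤ (NN α x.1 : ℝ) := by exact_mod_cast x.2.2
  have h2 := sp_pos α x.1
  have h3 : (NN α x.1 : ℝ) * sp α x.1 = lev x.1 / 2 := by
    unfold sp
    have : (0 : ℝ) < (NN α x.1 : ℝ) := by exact_mod_cast NN_pos α x.1
    field_simp
  have h4 : (((x.2 : ℕ) : ℝ) + 1) * sp α x.1 ≤ (NN α x.1 : ℝ) * sp α x.1 :=
    mul_le_mul_of_nonneg_right h1 h2.le
  nlinarith

theorem sepn_aux (α : ℝ) (x y : Idx α) (h : x.1 < y.1) : th α y + sp α y.1 ≤ th α x := by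
  have h1 := th_le α y
  have h2 := lev_lt h
  have h3 := th_ge α x
  have h4 := lev_pos x.1
  linarith

theorem sepn (α : ℝ) (x y : Idx α) (h : x ≠ y) :
    th α x + sp α x.1 ≤ th α y ∨ th α y + sp α y.1 ≤ th α x := by
  rcases lt_trichotomy x.1 y.1 with h1 | h1 | h1
  · exact Or.inr (sepn_aux α x y h1)
  · obtain ⟨j, a⟩ := x
    obtain ⟨k, b⟩ := y
    simp only at h1
    subst h1
    have hab : (a : ℕ) ≠ (b : ℕ) := by
      intro hab
      exact h (by rw [Fin.ext hab])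
    have hs := sp_pos α j
    rcases lt_or_gt_of_ne hab with h2 | h2
    · left
      rw [th_eq, th_eq]
      simp only
      have h3 : ((a : ℕ) : ℝ) + 1 ≤ ((b : ℕ) : ℝ) := by exact_mod_cast h2
      nlinarith
    · right
      rw [th_eq, th_eq]
      simp only
      have h3 : ((b : ℕ) : ℝ) + 1 ≤ ((a : ℕ) : ℝ) := by exact_mod_cast h2
      nlinarith
  · exact Or.inl (sepn_aux α y x h1)

/-- the intervals. -/
def II (α : ℝ) (x : Idx α) : Set ℝ := Ioo (th α x + sp α x.1 / 4) (th α x + sp α x.1 / 2)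

theorem II_disj (α : ℝ) : Pairwise (Function.onFun Disjoint (II α)) := by
  intro x y hxy
  unfold Function.onFun
  rw [Set.disjoint_left]
  intro θ hx hy
  unfold II at hx hy
  have h1 := sp_pos α x.1
  have h2 := sp_pos α y.1
  rcases sepn α x y hxy with h | h
  · have := hx.2; have := hy.1; linarith
  · have := hx.1; have := hy.2; linarith

theorem II_sub (α : ℝ) (x : Idx α) : II α x ⊆ Ioc (0 : ℝ) (2 * π) := by
  intro θ hθ
  unfold II at hθ
  have h1 := sp_pos α x.1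
  have h2 := th_ge α x
  have h3 := th_le α x
  have h4 := lev_pos x.1
  have h5 := lev_le x.1
  have h6 := Real.pi_gt_three
  constructor
  · have := hθ.1; linarith
  · have := hθ.2; linarith

/-- lower bound for distances. -/
theorem dist_ge (α : ℝ) (x : Idx α) (θ : ℝ) (hθ : θ ∈ II α x) (p : ℂ) (hp : p ∈ ES (pp α)) :
    2 / π * (sp α x.1 / 4) ≤ dist (Complex.exp ((θ : ℂ) * I)) p := by
  have h1 := sp_pos α x.1
  have h2 := th_ge α x
  have h3 := th_le α x
  have h4 := lev_pos x.1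
  have h5 := lev_le x.1
  have h6 := Real.pi_gt_three
  unfold II at hθ
  have hθ1 := hθ.1
  have hθ2 := hθ.2
  have key : ∀ t : ℝ, 0 ≤ t → t ≤ 1 → sp α x.1 / 4 ≤ |θ - t| →
      2 / π * (sp α x.1 / 4) ≤ dist (Complex.exp ((θ : ℂ) * I)) (Complex.exp ((t : ℂ) * I)) := by
    intro t ht0 ht1 ht
    rw [dist_eq_norm]
    have h7 : |θ - t| ≤ π := by
      rw [abs_le]; constructor <;> linarith
    refine le_trans ?_ (le_chord θ t h7)
    exact mul_le_mul_of_nonneg_left ht (by positivity)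
  rcases hp with hp | ⟨y, rfl⟩
  · subst hp
    have h8 := key 0 le_rfl (by norm_num) (by
      rw [sub_zero, abs_of_pos (by linarith)]; linarith)
    simpa using h8
  · unfold pp
    have h8 := th_le α y
    have h9 := lev_le y.1
    have h10 := th_ge α y
    have h11 := lev_pos y.1
    have h12 := sp_pos α y.1
    apply key (th α y) (by linarith) (by linarith)
    by_cases hxy : x = y
    · subst hxy
      rw [abs_of_pos (by linarith)]
      linarith
    · rcases sepn α x y hxy with h | h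
      · rw [abs_of_neg (by linarith)]; linarith
      · rw [abs_of_pos (by linarith)]; linarith

theorem infDist_bounds (α : ℝ) (x : Idx α) (θ : ℝ) (hθ : θ ∈ II α x) :
    0 < infDist (Complex.exp ((θ : ℂ) * I)) (ES (pp α)) ∧
      infDist (Complex.exp ((θ : ℂ) * I)) (ES (pp α)) ≤ sp α x.1 := by
  have h1 := sp_pos α x.1
  have hne : (ES (pp α)).Nonempty := ⟨1, Or.inl rfl⟩
  constructor
  · have h2 : 2 / π * (sp α x.1 / 4) ≤ infDist (Complex.exp ((θ : ℂ) * I)) (ES (pp α)) := by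
      rw [le_infDist hne]
      intro p hp
      exact dist_ge α x θ hθ p hp
    have h3 : 0 < 2 / π * (sp α x.1 / 4) := by
      have := Real.pi_pos
      positivity
    linarith
  · have h2 : pp α x ∈ ES (pp α) := Or.inr ⟨x, rfl⟩
    refine (infDist_le_dist_of_mem h2).trans ?_
    rw [dist_eq_norm]
    unfold pp
    refine (chord_le θ (th α x)).trans ?_
    unfold II at hθ
    have := hθ.1
    have := hθ.2
    rw [abs_of_pos (by linarith)]
    linarith

theorem block_lower (α : ℝ) (h0 : 0 < α) (x : Idx α) :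
    ENNReal.ofReal (sp α x.1 ^ (1 - α) / 4) ≤
      ∫⁻ θ in II α x, ENNReal.ofReal
        (infDist (Complex.exp ((θ : ℂ) * I)) (ES (pp α)) ^ (-α)) := by
  have h1 := sp_pos α x.1
  have h2 : ENNReal.ofReal (sp α x.1 ^ (1 - α) / 4)
      = ∫⁻ _θ in II α x, ENNReal.ofReal (sp α x.1 ^ (-α)) := by
    rw [setLIntegral_const]
    unfold II
    rw [Real.volume_Ioo, ← ENNReal.ofReal_mul (by positivity)]
    congr 1
    have h3 : sp α x.1 ^ (1 - α) = sp α x.1 ^ (-α) * sp α x.1 := by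
      rw [sub_eq_neg_add, Real.rpow_add h1, Real.rpow_one]
    rw [h3]
    ring
  rw [h2]
  apply setLIntegral_mono' (by unfold II; exact measurableSet_Ioo)
  intro θ hθ
  obtain ⟨h3, h4⟩ := infDist_bounds α x θ hθ
  apply ENNReal.ofReal_le_ofReal
  exact Real.rpow_le_rpow_of_nonpos h3 h4 (by linarith)

theorem num_lower (α : ℝ) (h0 : 0 < α) (h1 : α < 1) (j : ℕ) :
    1 / (8 * ((j : ℝ) + 1)) ≤ (NN α j : ℝ) * (sp α j ^ (1 - α) / 4) := by
  have hN : (0 : ℝ) < (NN α j : ℝ) := by exact_mod_cast NN_pos α j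
  have hL := lev_pos j
  have hX : (2 : ℝ) ^ (((j : ℝ) + 1) * (1 / α - 1)) * ((j : ℝ) + 1) ^ (-(1 / α)) ≤ (NN α j : ℝ) := by
    unfold NN; exact Nat.le_ceil _
  set X : ℝ := (2 : ℝ) ^ (((j : ℝ) + 1) * (1 / α - 1)) * ((j : ℝ) + 1) ^ (-(1 / α)) with hXdef
  have hj : (0 : ℝ) < (j : ℝ) + 1 := by positivity
  have hX0 : 0 < X := by rw [hXdef]; positivity
  -- N * sp^(1-α) = N^α * (L/2)^(1-α)
  have e1 : (NN α j : ℝ) * sp α j ^ (1 - α) = (NN α j : ℝ) ^ α * (lev j / 2) ^ (1 - α) := by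
    have : sp α j = (lev j / 2) / (NN α j : ℝ) := by unfold sp; field_simp
    rw [this, Real.div_rpow (by positivity) hN.le]
    have h3 : (NN α j : ℝ) = (NN α j : ℝ) ^ α * (NN α j : ℝ) ^ (1 - α) := by
      rw [← Real.rpow_add hN]; simp
    have h4 : (NN α j : ℝ) ^ (1 - α) ≠ 0 := by positivity
    field_simp
    rw [mul_comm]
    exact h3
  have e2 : X ^ α = (2 : ℝ) ^ (((j : ℝ) + 1) * (1 - α)) * ((j : ℝ) + 1)⁻¹ := by
    rw [hXdef, Real.mul_rpow (by positivity) (by positivity), ← Real.rpow_mul (by norm_num),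
      ← Real.rpow_mul hj.le]
    have h5 : ((j : ℝ) + 1) * (1 / α - 1) * α = ((j : ℝ) + 1) * (1 - α) := by
      field_simp
    have h6 : -(1 / α) * α = -1 := by field_simp
    rw [h5, h6, Real.rpow_neg_one]
  have e3 : (lev j / 2) ^ (1 - α) = (2 : ℝ) ^ (-(((j : ℝ) + 1) * (1 - α))) * (2 : ℝ) ^ (α - 1) := by
    have h7 : lev j / 2 = (2 : ℝ) ^ (-(((j : ℝ) + 1) + 1)) := by
      unfold lev
      rw [Real.rpow_neg (by norm_num)]
      have : ((j : ℝ) + 1 + 1) = ((j + 1 + 1 : ℕ) : ℝ) := by push_cast; ring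
      rw [this, Real.rpow_natCast, pow_succ, one_div, inv_pow]
      field_simp
      ring
    rw [h7, ← Real.rpow_mul (by norm_num), ← Real.rpow_add (by norm_num)]
    congr 1
    ring
  have e4 : X ^ α ≤ (NN α j : ℝ) ^ α := Real.rpow_le_rpow hX0.le hX h0.le
  have e5 : X ^ α * (lev j / 2) ^ (1 - α) = ((j : ℝ) + 1)⁻¹ * (2 : ℝ) ^ (α - 1) := by
    rw [e2, e3]
    have : (2 : ℝ) ^ (((j : ℝ) + 1) * (1 - α)) * (2 : ℝ) ^ (-(((j : ℝ) + 1) * (1 - α))) = 1 := by
      rw [← Real.rpow_add (by norm_num)]; simp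
    calc (2 : ℝ) ^ (((j : ℝ) + 1) * (1 - α)) * ((j : ℝ) + 1)⁻¹ *
          ((2 : ℝ) ^ (-(((j : ℝ) + 1) * (1 - α))) * (2 : ℝ) ^ (α - 1))
        = ((2 : ℝ) ^ (((j : ℝ) + 1) * (1 - α)) * (2 : ℝ) ^ (-(((j : ℝ) + 1) * (1 - α)))) *
          (((j : ℝ) + 1)⁻¹ * (2 : ℝ) ^ (α - 1)) := by ring
      _ = _ := by rw [this, one_mul]
  have e6 : (1 / 2 : ℝ) ≤ (2 : ℝ) ^ (α - 1) := by
    have : (2 : ℝ) ^ (-1 : ℝ) ≤ (2 : ℝ) ^ (α - 1) :=
      Real.rpow_le_rpow_of_exponent_le (by norm_num) (by linarith)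
    rw [Real.rpow_neg_one] at this
    linarith
  have e7 : (NN α j : ℝ) * (sp α j ^ (1 - α) / 4) = (NN α j : ℝ) ^ α * (lev j / 2) ^ (1 - α) / 4 := by
    rw [← e1]; ring
  rw [e7]
  have e8 : X ^ α * (lev j / 2) ^ (1 - α) ≤ (NN α j : ℝ) ^ α * (lev j / 2) ^ (1 - α) :=
    mul_le_mul_of_nonneg_right e4 (by positivity)
  have e9 : ((j : ℝ) + 1)⁻¹ * (1 / 2) ≤ ((j : ℝ) + 1)⁻¹ * (2 : ℝ) ^ (α - 1) :=
    mul_le_mul_of_nonneg_left e6 (by positivity)
  have e10 : 1 / (8 * ((j : ℝ) + 1)) = ((j : ℝ) + 1)⁻¹ * (1 / 2) / 4 := by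
    field_simp; norm_num
  rw [e10]
  linarith

theorem harm_top : ∑' j : ℕ, ENNReal.ofReal (1 / (8 * ((j : ℝ) + 1))) = ⊤ := by
  by_contra h
  have h1 := ENNReal.summable_toReal h
  have h2 : Summable (fun j : ℕ => 1 / (8 * ((j : ℝ) + 1))) := by
    refine h1.congr ?_
    intro j
    rw [ENNReal.toReal_ofReal (by positivity)]
  have h3 : Summable (fun j : ℕ => 1 / (((j + 1 : ℕ) : ℝ))) := by
    refine (h2.mul_left 8).congr ?_
    intro j
    push_cast
    field_simp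
  exact Real.not_summable_one_div_natCast ((summable_nat_add_iff 1).1 h3)

/-- subtask EXD. -/
theorem t_EXD : Pool.Agent.W728.PK.EXD_stmt := by
  intro α h0 h1
  unfold Pool.Agent.W728.PK.Div
  rw [eq_top_iff, ← harm_top]
  have h2 : ∀ j : ℕ, ENNReal.ofReal (1 / (8 * ((j : ℝ) + 1))) ≤
      ∑' _b : Fin (NN α j), ENNReal.ofReal (sp α j ^ (1 - α) / 4) := by
    intro j
    rw [tsum_fintype, Finset.sum_const, Finset.card_univ, Fintype.card_fin, nsmul_eq_mul,
      ← ENNReal.ofReal_natCast, ← ENNReal.ofReal_mul (by positivity)]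
    exact ENNReal.ofReal_le_ofReal (num_lower α h0 h1 j)
  refine (ENNReal.tsum_le_tsum h2).trans ?_
  have h3 := ENNReal.tsum_sigma (fun (j : ℕ) (_b : Fin (NN α j)) =>
    ENNReal.ofReal (sp α j ^ (1 - α) / 4))
  rw [← h3]
  have h4 : ∀ x : Idx α, ENNReal.ofReal (sp α x.1 ^ (1 - α) / 4) ≤
      ∫⁻ θ in II α x, ENNReal.ofReal
        (infDist (Complex.exp ((θ : ℂ) * I)) (ES (pp α)) ^ (-α)) := fun x => block_lower α h0 x
  refine (ENNReal.tsum_le_tsum h4).trans ?_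
  rw [← lintegral_iUnion (fun x => by unfold II; exact measurableSet_Ioo) (II_disj α)]
  exact lintegral_mono_set (iUnion_subset fun x => II_sub α x)

end

end Pool.Agent.W143.PK
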